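import Pool.Agent.Lib.MP_688fd0_co.LIN.H85.Mdc

/-!
Module STEPA (helper85): getting the kept connections (section 4 of Paper.md, first half).
-/

set_option autoImplicit false

namespace Pool.Agent.Lib.MP_688fd0_co.LIN.H85

open Classical
open Pool.Agent.Lib.MP_688fd0_co.LP (IsP Conn Cyc Symm cay)

universe u

/-- contiguous parts of chains are chains -/
theorem chain_part {V : Type*} {r : V → V → Prop} {s l : List V} (hl : l.IsChain r) (hs : s <:+: l) :
    s.IsChain r := by
  obtain ⟨x, y, rfl⟩ := hs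
  exact (List.isChain_append.1 (List.isChain_append.1 hl).1).2.1

/-- two different elements of a list bound a contiguous part of it -/
theorem between {V : Type*} {l : List V} {a b : V} (ha : a ∈ l) (hb : b ∈ l) (hne : a ≠ b) :
    (∃ s : List V, s <:+: l ∧ s.head? = some a ∧ s.getLast? = some b ∧ 2 ≤ s.length) ∨
      ∃ s : List V, s <:+: l ∧ s.head? = some b ∧ s.getLast? = some a ∧ 2 ≤ s.length := by
  obtain ⟨l1, l2, rfl⟩ := List.append_of_mem ha
  have hb' : b ∈ l1 ∨ b ∈ l2 := by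
    rcases List.mem_append.1 hb with h | h
    · exact Or.inl h
    · rcases List.mem_cons.1 h with h | h
      · exact absurd h.symm hne
      · exact Or.inr h
  rcases hb' with h | h
  · right
    obtain ⟨m1, m2, rfl⟩ := List.append_of_mem h
    refine ⟨b :: (m2 ++ [a]), ⟨m1, l2, by simp⟩, rfl, ?_, by simp⟩
    rw [← List.cons_append, List.getLast?_append]
    simp
  · left
    obtain ⟨m1, m2, rfl⟩ := List.append_of_mem h
    refine ⟨a :: (m1 ++ [b]), ⟨l1, m2, by simp⟩, rfl, ?_, by simp⟩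
    rw [← List.cons_append, List.getLast?_append]
    simp

/-- Two connections that start in one window and end in one other cycle end far apart. -/
theorem far {V : Type u} [Fintype V] {G H : SimpleGraph V} {l w : ℕ} (hM : MergeStatement.{u}) (hO : Opt G l H)
    {W0 : List V} (hW : W0.Nodup ∧ W0.IsChain H.Adj ∧ W0.length ≤ w) {c c' : List V} {a a' b b' : V}
    {S S' T : Finset V} (hc : IsConn G (hcls H) S c) (hc' : IsConn G (hcls H) S' c') (hd : List.Disjoint c c')
    (ha : c.head? = some a) (ha' : c'.head? = some a') (hb : c.getLast? = some b) (hb' : c'.getLast? = some b')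
    (haW : a ∈ W0) (haW' : a' ∈ W0) (hT : hcls H b = some T)
    (hST : T ≠ S) (hr : H.Reachable b b') : l + 3 ≤ w + H.dist b b' := by
  have hac : a ∈ c := List.mem_of_head? ha
  have hac' : a' ∈ c' := List.mem_of_head? ha'
  have hbc : b ∈ c := List.mem_of_getLast? hb
  have hbc' : b' ∈ c' := List.mem_of_getLast? hb'
  have hne : a ≠ a' := fun h => hd hac (h ▸ hac')
  have hneb : b ≠ b' := fun h => hd hbc (h ▸ hbc')
  have hSa : hcls H a = some S := by
    obtain ⟨x, hx, hx'⟩ := hc.2.1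
    rw [ha] at hx
    rw [Option.some.inj hx]
    exact hx'
  have inner : ∀ {S : Finset V} {c : List V}, IsConn G (hcls H) S c → ∀ v ∈ c.tail.dropLast, v ∉ cov H :=
    fun h v hv => hcls_none.1 (h.2.2.2 v hv)
  -- any arc from `a`-side to `a'`-side
  have key : ∀ (α β c1 c2 : List V), IsArc H α → α.length ≤ w → α <:+: W0 → IsArc H β →
      β.length = H.dist b b' + 1 → (∀ y ∈ β, H.Reachable b y) → IsP G c1 → IsP G c2 →
      (∀ v ∈ c1.tail.dropLast, v ∉ cov H) → (∀ v ∈ c2.tail.dropLast, v ∉ cov H) → List.Disjoint c1 c2 →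
      c1.head? = α.head? → c2.head? = α.getLast? → c1.getLast? = β.head? → c2.getLast? = β.getLast? →
      l + 3 ≤ w + H.dist b b' := by
    intro α β c1 c2 hα hαw hαi hβ hβl hβr h1 h2 h3 h4 h5 h6 h7 h8 h9
    have hno : ∀ x ∈ α, ∀ y ∈ β, ¬ H.Reachable x y := by
      intro x hx y hy hxy
      have hxa : H.Reachable a x := chain_reach hW.2.1 a haW x (hαi.subset hx)
      have h10 : H.Reachable a b := (hxa.trans hxy).trans (hβr y hy).symm
      apply hST
      rw [← (hcls_some.1 hT).2, ← (hcls_some.1 hSa).2]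
      exact (cyc_eq_iff.2 h10).symm
    obtain ⟨H', hH', hphi⟩ := hM V G H l α β c1 c2 hO.1 hα hβ hno h1 h2 h3 h4 h5 h6 h7 h8 h9
    have := hO.2 H' hH'
    rw [hβl] at hphi
    push_cast at hphi
    have h11 : (α.length : ℤ) ≤ w := by exact_mod_cast hαw
    have h12 : (l : ℤ) + 3 ≤ w + H.dist b b' := by linarith
    exact_mod_cast h12
  have arc : ∀ s : List V, s <:+: W0 → 2 ≤ s.length → IsArc H s ∧ s.length ≤ w := by
    intro s hs h2
    refine ⟨⟨chain_part hW.2.1 hs, hW.1.sublist hs.sublist, h2⟩, hs.length_le.trans hW.2.2⟩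
  rcases between haW haW' hne with ⟨s, hs, h1, h2, h3⟩ | ⟨s, hs, h1, h2, h3⟩
  · obtain ⟨β, hβ, hβ1, hβ2, hβ3⟩ := dist_arc hr hneb
    refine key s β c c' (arc s hs h3).1 (arc s hs h3).2 hs hβ hβ3 ?_ hc.1 hc'.1 (inner hc) (inner hc') hd
      (by rw [ha, h1]) (by rw [ha', h2]) (by rw [hb, hβ1]) (by rw [hb', hβ2])
    intro y hy
    exact chain_reach hβ.1 b (List.mem_of_head? hβ1) y hy
  · obtain ⟨β, hβ, hβ1, hβ2, hβ3⟩ := dist_arc hr.symm hneb.symm
    refine key s β c' c (arc s hs h3).1 (arc s hs h3).2 hs hβ (by rw [hβ3, SimpleGraph.dist_comm]) ?_ hc'.1 hc.1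
      (inner hc') (inner hc) hd.symm
      (by rw [ha', h1]) (by rw [ha, h2]) (by rw [hb', hβ1]) (by rw [hb, hβ2])
    intro y hy
    exact chain_reach hβ.1 b (List.mem_of_getLast? hβ2) y hy

/-- The connections of one mover: many of them start in one window and end far apart. -/
theorem one_mover {V : Type u} [Fintype V] {G H : SimpleGraph V} {τ : Type*} (d l K : ℕ) (W : Finset (List V))
    (hM : MergeStatement.{u}) (hS : SepStatement.{u}) (hO : Opt G l H) (hK : 1 ≤ K) (hl : 16 ≤ l)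
    (hlong : ∀ v ∈ cov H, l ≤ (cyc H v).card)
    (hW : ∀ l' ∈ W, l' ≠ [] ∧ l'.Nodup ∧ l'.IsChain H.Adj ∧ l'.length ≤ l / 16 ∧ ∀ v ∈ l', v ∈ cov H)
    (hWc : ∀ v ∈ cov H, ∃ l' ∈ W, v ∈ l')
    (hWn : ∀ v ∈ cov H, (l / 16) * (W.filter (fun l' => ∀ x ∈ l', H.Reachable v x)).card ≤ 2 * (cyc H v).card)
    {S : Finset V} (hSc : S ∈ cycs H) (hSs : S.card ≤ 2 * K * l) (T : Finset τ) (Q : τ → List V)
    (hQ : ∀ t ∈ T, IsConn G (hcls H) S (Q t)) (hdj : ∀ s ∈ T, ∀ t ∈ T, s ≠ t → List.Disjoint (Q s) (Q t))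
    (hT : 2 ^ 47 * (d + 1) ^ 2 * K ^ 3 ≤ T.card) :
    ∃ T' ⊆ T, T'.card = 49152 * (d + 1) * K ∧ (∃ W0 ∈ W, ∀ t ∈ T', ∃ a ∈ W0, (Q t).head? = some a) ∧
      ∀ s ∈ T', ∀ t ∈ T', s ≠ t → ∀ b b', (Q s).getLast? = some b → (Q t).getLast? = some b' →
        H.Reachable b b' → 2 ^ 20 * (d + 1) * K * (l / 16) ≤ H.dist b b' := by
  obtain ⟨v0, hv0, rfl⟩ := mem_cycs.1 hSc
  -- heads, tails and windows
  have hex : ∀ t : τ, ∃ (a b : V) (W0 : List V), t ∈ T → ((Q t).head? = some a ∧ (Q t).getLast? = some b ∧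
      (∃ j, hcls H b = some j ∧ j ≠ cyc H v0) ∧ W0 ∈ W ∧ a ∈ W0 ∧ cyc H a = cyc H v0 ∧ b ∈ cov H) := by
    intro t
    by_cases ht : t ∈ T
    · obtain ⟨_, ⟨a, ha, ha'⟩, ⟨b, j, hb, hb', hj⟩, _⟩ := hQ t ht
      obtain ⟨hac, hac'⟩ := hcls_some.1 ha'
      obtain ⟨W0, hW0, haW⟩ := hWc a hac
      exact ⟨a, b, W0, fun _ => ⟨ha, hb, ⟨j, hb', hj⟩, hW0, haW, hac', (hcls_some.1 hb').1⟩⟩
    · exact ⟨v0, v0, [], fun h => absurd h ht⟩
  choose a b W0 hab using hex
  have hw : 1 ≤ l / 16 := by omega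
  have hlw : l ≤ 32 * (l / 16) := by omega
  -- number of windows
  have hcard : (W.filter (fun l' => ∀ x ∈ l', H.Reachable v0 x)).card ≤ 128 * K := by
    have h1 := hWn v0 hv0
    have h2 : (l / 16) * (W.filter (fun l' => ∀ x ∈ l', H.Reachable v0 x)).card ≤ (l / 16) * (128 * K) := by
      calc _ ≤ 2 * (cyc H v0).card := h1
        _ ≤ 2 * (2 * K * l) := by gcongr
        _ ≤ 2 * (2 * K * (32 * (l / 16))) := by gcongr
        _ = _ := by ring
    exact Nat.le_of_mul_le_mul_left h2 hw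
  have hmaps : ∀ t ∈ T, W0 t ∈ W.filter (fun l' => ∀ x ∈ l', H.Reachable v0 x) := by
    intro t ht
    obtain ⟨_, _, _, h1, h2, h3, _⟩ := hab t ht
    rw [Finset.mem_filter]
    refine ⟨h1, fun x hx => ?_⟩
    exact (cyc_eq_iff.1 h3).symm.trans (chain_reach (hW _ h1).2.2.1 _ h2 x hx)
  have hTne : T.Nonempty := by
    rw [← Finset.card_pos]
    have : 0 < 2 ^ 47 * (d + 1) ^ 2 * K ^ 3 := by positivity
    omega
  have hne : (W.filter (fun l' => ∀ x ∈ l', H.Reachable v0 x)).Nonempty := by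
    obtain ⟨t, ht⟩ := hTne
    exact ⟨_, hmaps t ht⟩
  obtain ⟨Wx, hWx, hbig⟩ := Finset.exists_le_card_fiber_of_mul_le_card_of_maps_to
    (n := 2 ^ 40 * (d + 1) ^ 2 * K ^ 2) hmaps hne (by
      calc _ ≤ (128 * K) * (2 ^ 40 * (d + 1) ^ 2 * K ^ 2) := by gcongr
        _ = 2 ^ 47 * (d + 1) ^ 2 * K ^ 3 := by ring
        _ ≤ _ := hT)
  obtain ⟨hWx1, _⟩ := Finset.mem_filter.1 hWx
  obtain ⟨T1, hT1⟩ : ∃ T1, T1 = T.filter (fun t => W0 t = Wx) := ⟨_, rfl⟩
  rw [← hT1] at hbig
  have hT1s : T1 ⊆ T := by rw [hT1]; exact Finset.filter_subset _ _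
  have hT1w : ∀ t ∈ T1, a t ∈ Wx := by
    intro t ht
    rw [hT1, Finset.mem_filter] at ht
    rw [← ht.2]
    exact (hab t ht.1).2.2.2.2.1
  have hinj : Set.InjOn b (T1 : Set τ) := by
    intro s hs t ht hst
    by_contra hne
    have h1 := (hab s (hT1s hs)).2.1
    have h2 := (hab t (hT1s ht)).2.1
    exact hdj s (hT1s hs) t (hT1s ht) hne (List.mem_of_getLast? h1) (hst ▸ List.mem_of_getLast? h2)
  obtain ⟨P', hP'1, hP'2, hP'3⟩ := hS V G H hO.1 (l / 16) hw
    (fun v hv => (by omega : 16 * (l / 16) ≤ l).trans (hlong v hv)) (T1.image b) (by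
      intro x hx
      obtain ⟨t, ht, rfl⟩ := Finset.mem_image.1 hx
      exact (hab t (hT1s ht)).2.2.2.2.2.2) (by
      intro p hp p' hp' hne hr
      obtain ⟨s, hs, rfl⟩ := Finset.mem_image.1 hp
      obtain ⟨t, ht, rfl⟩ := Finset.mem_image.1 hp'
      have hst : s ≠ t := fun h => hne (by rw [h])
      obtain ⟨h1, h2, ⟨j, h3, h4⟩, _⟩ := hab s (hT1s hs)
      obtain ⟨h5, h6, _⟩ := hab t (hT1s ht)
      have h7 := hW Wx hWx1
      have h8 := far hM hO (w := l / 16) ⟨h7.2.1, h7.2.2.1, h7.2.2.2.1⟩ (hQ s (hT1s hs)) (hQ t (hT1s ht))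
        (hdj s (hT1s hs) t (hT1s ht) hst) h1 h5 h2 h6 (hT1w s hs) (hT1w t ht) h3 h4 hr
      omega) (2 ^ 20 * (d + 1) * K) (by
      have : 1 ≤ (d + 1) * K := Nat.mul_pos (by omega) hK
      calc 3 ≤ 2 ^ 20 * 1 := by norm_num
        _ ≤ 2 ^ 20 * ((d + 1) * K) := by gcongr
        _ = _ := by ring)
  rw [Finset.card_image_of_injOn hinj] at hP'3
  have hq0 : 49152 * (d + 1) * K ≤ P'.card := by
    have h1 : (2 ^ 20 * (d + 1) * K) * (49152 * (d + 1) * K) ≤ (2 ^ 20 * (d + 1) * K) * P'.card := by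
      calc (2 ^ 20 * (d + 1) * K) * (49152 * (d + 1) * K) = (2 ^ 20 * 49152) * ((d + 1) ^ 2 * K ^ 2) := by ring
        _ ≤ 2 ^ 40 * ((d + 1) ^ 2 * K ^ 2) := by gcongr; norm_num
        _ = 2 ^ 40 * (d + 1) ^ 2 * K ^ 2 := by ring
        _ ≤ _ := hbig.trans hP'3
    exact Nat.le_of_mul_le_mul_left h1 (by positivity)
  obtain ⟨P'', hP''1, hP''2⟩ := Finset.exists_subset_card_eq hq0
  refine ⟨T1.filter (fun t => b t ∈ P''), (Finset.filter_subset _ _).trans hT1s, ?_, ⟨Wx, hWx1, ?_⟩, ?_⟩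
  · rw [← hP''2]
    have h1 : (T1.filter (fun t => b t ∈ P'')).image b = P'' := by
      ext x
      rw [Finset.mem_image]
      constructor
      · rintro ⟨t, ht, rfl⟩
        exact (Finset.mem_filter.1 ht).2
      · intro hx
        obtain ⟨t, ht, rfl⟩ := Finset.mem_image.1 (hP'1 (hP''1 hx))
        exact ⟨t, Finset.mem_filter.2 ⟨ht, hx⟩, rfl⟩
    rw [← Finset.card_image_of_injOn (f := b) (s := T1.filter (fun t => b t ∈ P'')), h1]
    exact hinj.mono (fun x hx => (Finset.mem_filter.1 hx).1)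
  · intro t ht
    have ht1 := (Finset.mem_filter.1 ht).1
    exact ⟨a t, hT1w t ht1, (hab t (hT1s ht1)).1⟩
  · intro s hs t ht hst x y hx hy hr
    obtain ⟨hs1, hs2⟩ := Finset.mem_filter.1 hs
    obtain ⟨ht1, ht2⟩ := Finset.mem_filter.1 ht
    have h1 : x = b s := Option.some.inj (hx.symm.trans (hab s (hT1s hs1)).2.1)
    have h2 : y = b t := Option.some.inj (hy.symm.trans (hab t (hT1s ht1)).2.1)
    subst h1
    subst h2
    exact hP'2 _ (hP''1 hs2) _ (hP''1 ht2) (fun h => hst (hinj hs1 ht1 h)) hr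

/-- More than half of the cycles are short. -/
theorem short_count {V : Type u} [Fintype V] {H : SimpleGraph V} (hMass : MassStatement.{u}) (l K : ℕ) (hl : 1 ≤ K * l)
    (hp : (cov H).card ≤ K * l * ncyc H) : ncyc H ≤ 2 * ((cycs H).filter (fun S => S.card ≤ 2 * K * l)).card := by
  have h1 := hMass V H
  have h2 := Finset.card_filter_add_card_filter_not (s := cycs H) (fun S => S.card ≤ 2 * K * l)
  have h3 : ((cycs H).filter (fun S => ¬ S.card ≤ 2 * K * l)).card * (2 * K * l) ≤ (cov H).card := by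
    rw [← h1, ← smul_eq_mul, ← Finset.sum_const]
    calc _ ≤ ∑ S ∈ (cycs H).filter (fun S => ¬ S.card ≤ 2 * K * l), S.card := by
          apply Finset.sum_le_sum
          intro S hS
          have := (Finset.mem_filter.1 hS).2
          omega
      _ ≤ _ := Finset.sum_le_sum_of_subset (Finset.filter_subset _ _)
  have h4 : (K * l) * (2 * ((cycs H).filter (fun S => ¬ S.card ≤ 2 * K * l)).card) ≤ (K * l) * ncyc H := by
    calc _ = ((cycs H).filter (fun S => ¬ S.card ≤ 2 * K * l)).card * (2 * K * l) := by ring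
      _ ≤ _ := h3.trans hp
  have h5 := Nat.le_of_mul_le_mul_left h4 hl
  unfold ncyc at h5 ⊢
  omega

theorem stepa (hM : MergeStatement.{u}) (hOpt : OptStatement.{u}) (hS : SepStatement.{u})
    (hMass : MassStatement.{u}) : StepAStatement.{u} := by
  intro V _ G H d l K q W hd hO hK hl hI hq hN hp hW hWd hWc hWn
  have hlong : ∀ v ∈ cov H, l ≤ (cyc H v).card := fun v hv => (((hOpt V G l).2 H hO).1 v hv).1
  obtain ⟨I, hIdef⟩ : ∃ I, I = (cycs H).filter (fun S => S.card ≤ 2 * K * l) := ⟨_, rfl⟩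
  have hIN : ncyc H ≤ 2 * I.card := by
    rw [hIdef]
    exact short_count hMass l K (Nat.mul_pos hK (by omega)) hp
  have hIc : ∀ S ∈ I, S ∈ cycs H ∧ S.card ≤ 2 * K * l := by
    intro S h
    rw [hIdef] at h
    exact Finset.mem_filter.1 h
  obtain ⟨M, m, Q, src, tgt, hMI, hm, hQ, hdj, hcap⟩ := mdc G d q hd (hcls H) I (fun S h => hI S (hIc S h).1)
  obtain ⟨thr, hthr⟩ : ∃ thr, thr = q / (16 * (d + 1)) := ⟨_, rfl⟩
  obtain ⟨Good, hGood⟩ : ∃ Good, Good = M.filter (fun S => thr ≤ (Finset.univ.filter (fun t => src t = S)).card) :=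
    ⟨_, rfl⟩
  have hthr1 : 16 * (d + 1) * thr ≤ q := by
    rw [hthr]
    exact Nat.mul_div_le _ _
  have hthr2 : 2 ^ 47 * (d + 1) ^ 2 * K ^ 3 ≤ thr := by
    rw [hthr, Nat.le_div_iff_mul_le (by positivity)]
    calc _ = 2 ^ 51 * (d + 1) ^ 3 * K ^ 3 := by ring
      _ ≤ q := hq
  have hqpos : 0 < q := by
    have : 0 < 2 ^ 51 * (d + 1) ^ 3 * K ^ 3 := by positivity
    omega
  have hcap' : ∀ S, (Finset.univ.filter (fun t => src t = S)).card ≤ q := by
    intro S
    convert hcap S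
  have hGM : Good ⊆ M := by rw [hGood]; exact Finset.filter_subset _ _
  -- many good movers
  have hmany : I.card ≤ 16 * (d + 1) * Good.card := by
    have h1 : m ≤ q * Good.card + thr * I.card := by
      calc m = ∑ S ∈ M, (Finset.univ.filter (fun t => src t = S)).card := by
            rw [← Finset.card_eq_sum_card_fiberwise (f := src) (s := Finset.univ) (t := M)
              (fun t _ => (hQ t).1)]
            simp
        _ = ∑ S ∈ Good, (Finset.univ.filter (fun t => src t = S)).card +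
            ∑ S ∈ M.filter (fun S => ¬ thr ≤ (Finset.univ.filter (fun t => src t = S)).card),
              (Finset.univ.filter (fun t => src t = S)).card := by
            rw [hGood, Finset.sum_filter_add_sum_filter_not]
        _ ≤ ∑ S ∈ Good, q + ∑ S ∈ M.filter (fun S => ¬ thr ≤ (Finset.univ.filter (fun t => src t = S)).card),
              thr := by
            apply Nat.add_le_add
            · exact Finset.sum_le_sum (fun S _ => hcap' S)
            · apply Finset.sum_le_sum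
              intro S hS
              have := (Finset.mem_filter.1 hS).2
              omega
        _ = q * Good.card +
              thr * (M.filter (fun S => ¬ thr ≤ (Finset.univ.filter (fun t => src t = S)).card)).card := by
            simp only [Finset.sum_const, smul_eq_mul]
            ring
        _ ≤ _ := by
            gcongr
            exact (Finset.filter_subset _ _).trans hMI
    have h2 : q * (2 * I.card) ≤ q * (16 * (d + 1) * Good.card + I.card) := by
      calc q * (2 * I.card) = 2 * (q * I.card) := by ring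
        _ ≤ 2 * (8 * (d + 1) * m) := by gcongr
        _ ≤ 2 * (8 * (d + 1) * (q * Good.card + thr * I.card)) := by gcongr
        _ = q * (16 * (d + 1) * Good.card) + (16 * (d + 1) * thr) * I.card := by ring
        _ ≤ q * (16 * (d + 1) * Good.card) + q * I.card := by gcongr
        _ = _ := by ring
    have h3 := Nat.le_of_mul_le_mul_left h2 hqpos
    omega
  -- the kept connections of every good mover
  have hkeep : ∀ S : Finset V, ∃ T' : Finset (Fin m), S ∈ Good → ((∀ t ∈ T', src t = S) ∧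
      T'.card = 49152 * (d + 1) * K ∧ (∃ W0 ∈ W, ∀ t ∈ T', ∃ a ∈ W0, (Q t).head? = some a) ∧
      ∀ s ∈ T', ∀ t ∈ T', s ≠ t → ∀ b b', (Q s).getLast? = some b → (Q t).getLast? = some b' →
        H.Reachable b b' → 2 ^ 20 * (d + 1) * K * (l / 16) ≤ H.dist b b') := by
    intro S
    by_cases hSG : S ∈ Good
    · obtain ⟨h1, h2⟩ := hIc S (hMI (hGM hSG))
      obtain ⟨T', hT'1, hT'2, hT'3, hT'4⟩ := one_mover d l K W hM hS hO hK hl hlong hW hWc hWn h1 h2
        (Finset.univ.filter (fun t => src t = S)) Q (by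
          intro t ht
          have := (Finset.mem_filter.1 ht).2
          rw [← this]
          exact (hQ t).2.2.1) (fun s _ t _ hst => hdj s t hst) (by
          refine hthr2.trans ?_
          rw [hGood] at hSG
          exact (Finset.mem_filter.1 hSG).2)
      exact ⟨T', fun _ => ⟨fun t ht => (Finset.mem_filter.1 (hT'1 ht)).2, hT'2, hT'3, hT'4⟩⟩
    · exact ⟨∅, fun h => absurd h hSG⟩
  choose T hT using hkeep
  have hQinj : Function.Injective Q := by
    intro s t hst
    by_contra hne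
    obtain ⟨a, ha, _⟩ := (hQ s).2.2.1.2.1
    have h1 : a ∈ Q s := List.mem_of_head? ha
    exact hdj s t hne h1 (hst ▸ h1)
  have hsrc : ∀ t S, IsConn G (hcls H) S (Q t) → src t = S := by
    intro t S h
    obtain ⟨a, ha, ha'⟩ := h.2.1
    obtain ⟨b, hb, hb'⟩ := (hQ t).2.2.1.2.1
    rw [ha] at hb
    rw [← Option.some.inj hb, ha'] at hb'
    exact (Option.some.inj hb').symm
  have hmem : ∀ x ∈ (Good.biUnion T).image Q, ∃ t, x = Q t ∧ src t ∈ Good ∧ t ∈ T (src t) := by
    intro x hx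
    obtain ⟨t, ht, rfl⟩ := Finset.mem_image.1 hx
    obtain ⟨S, hSG, htS⟩ := Finset.mem_biUnion.1 ht
    have := (hT S hSG).1 t htS
    exact ⟨t, rfl, by rw [this]; exact hSG, by rw [this]; exact htS⟩
  have hhead : ∀ t a, (Q t).head? = some a → a ∈ cov H ∧ cyc H a = src t := by
    intro t a ha
    obtain ⟨b, hb, hb'⟩ := (hQ t).2.2.1.2.1
    rw [ha] at hb
    rw [← Option.some.inj hb] at hb'
    exact hcls_some.1 hb'
  refine ⟨Good, (Good.biUnion T).image Q, ?_, ?_⟩
  · refine ⟨?_, ?_, ?_, ?_, ?_, ?_, ?_⟩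
    · intro S h
      exact (hIc S (hMI (hGM h))).1
    · intro x hx
      obtain ⟨t, rfl, h1, h2⟩ := hmem x hx
      exact ⟨src t, h1, (hQ t).2.2.1⟩
    · intro x hx y hy hxy
      obtain ⟨s, rfl, _⟩ := hmem x hx
      obtain ⟨t, rfl, _⟩ := hmem y hy
      exact hdj s t (fun h => hxy (by rw [h]))
    · intro x hx b hb hbG
      obtain ⟨t, rfl, _⟩ := hmem x hx
      obtain ⟨b', hb', hcb⟩ := (hQ t).2.2.2
      rw [hb] at hb'
      rw [← Option.some.inj hb'] at hcb
      have := (hcls_some.1 hcb).2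
      rw [this] at hbG
      exact (hQ t).2.1 (hGM hbG)
    · intro S hSG
      have h1 : ((Good.biUnion T).image Q).filter (fun l => IsConn G (hcls H) S l) = (T S).image Q := by
        ext x
        rw [Finset.mem_filter, Finset.mem_image, Finset.mem_image]
        constructor
        · rintro ⟨⟨t, ht, rfl⟩, hx⟩
          obtain ⟨S', hS', htS'⟩ := Finset.mem_biUnion.1 ht
          have h2 := hsrc t S hx
          have h3 := (hT S' hS').1 t htS'
          refine ⟨t, ?_, rfl⟩
          rw [← h2, h3]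
          exact htS'
        · rintro ⟨t, ht, rfl⟩
          refine ⟨⟨t, Finset.mem_biUnion.2 ⟨S, hSG, ht⟩, rfl⟩, ?_⟩
          rw [← (hT S hSG).1 t ht]
          exact (hQ t).2.2.1
      rw [h1, Finset.card_image_of_injective _ hQinj]
      exact (hT S hSG).2.1
    · intro x hx y hy a a' ha ha' hr
      obtain ⟨s, rfl, h1, h2⟩ := hmem x hx
      obtain ⟨t, rfl, h3, h4⟩ := hmem y hy
      have h5 : src s = src t := by
        rw [← (hhead s a ha).2, ← (hhead t a' ha').2]
        exact cyc_eq_iff.2 hr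
      obtain ⟨W0, hW0, hW0'⟩ := (hT (src s) h1).2.2.1
      refine ⟨W0, hW0, ?_, ?_⟩
      · obtain ⟨c, hc, hc'⟩ := hW0' s h2
        rw [ha] at hc'
        rw [Option.some.inj hc']
        exact hc
      · obtain ⟨c, hc, hc'⟩ := hW0' t (by rw [h5]; exact h4)
        rw [ha'] at hc'
        rw [Option.some.inj hc']
        exact hc
    · intro x hx y hy hxy a a' b b' ha ha' hr hb hb' hr'
      obtain ⟨s, rfl, h1, h2⟩ := hmem x hx
      obtain ⟨t, rfl, h3, h4⟩ := hmem y hy
      have h5 : src s = src t := by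
        rw [← (hhead s a ha).2, ← (hhead t a' ha').2]
        exact cyc_eq_iff.2 hr
      exact (hT (src s) h1).2.2.2 s h2 t (by rw [h5]; exact h4) (fun h => hxy (by rw [h])) b b' hb hb' hr'
  · calc ncyc H ≤ 2 * I.card := hIN
      _ ≤ 2 * (16 * (d + 1) * Good.card) := by gcongr
      _ ≤ 384 * (d + 1) * Good.card := by
        have : 2 * (16 * (d + 1) * Good.card) = 32 * ((d + 1) * Good.card) := by ring
        have h2 : 384 * (d + 1) * Good.card = 384 * ((d + 1) * Good.card) := by ring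
        rw [this, h2]
        gcongr
        norm_num

end Pool.Agent.Lib.MP_688fd0_co.LIN.H85
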