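import Pool.Agent.Lib.MP_688fd0_co.LIN.Iface

/-!
Basic facts about the definitions of LIN (helper85).
-/

set_option autoImplicit false

namespace Pool.Agent.Lib.MP_688fd0_co.LIN.H85

open Classical
open Pool.Agent.Lib.MP_688fd0_co.LP (IsP Conn Cyc Symm cay)

section
variable {V : Type*} [Fintype V] {G H : SimpleGraph V}

theorem mem_cov {v : V} : v ∈ cov H ↔ ∃ w, H.Adj v w := by
  unfold cov
  simp

theorem mem_cyc {v w : V} : w ∈ cyc H v ↔ H.Reachable v w := by
  unfold cyc
  simp

theorem self_mem_cyc (v : V) : v ∈ cyc H v := mem_cyc.2 (SimpleGraph.Reachable.refl v)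

theorem cyc_eq_iff {v w : V} : cyc H v = cyc H w ↔ H.Reachable v w := by
  constructor
  · intro h
    have : w ∈ cyc H v := by
      rw [h]
      exact self_mem_cyc w
    exact mem_cyc.1 this
  · intro h
    ext x
    rw [mem_cyc, mem_cyc]
    exact ⟨fun h1 => h.symm.trans h1, fun h1 => h.trans h1⟩

theorem mem_cycs {S : Finset V} : S ∈ cycs H ↔ ∃ v ∈ cov H, cyc H v = S := by
  unfold cycs
  simp

theorem cyc_mem_cycs {v : V} (h : v ∈ cov H) : cyc H v ∈ cycs H := mem_cycs.2 ⟨v, h, rfl⟩

theorem cyc_of_mem {S : Finset V} (hS : S ∈ cycs H) {v : V} (hv : v ∈ S) : cyc H v = S := by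
  obtain ⟨u, hu, rfl⟩ := mem_cycs.1 hS
  exact (cyc_eq_iff.2 (mem_cyc.1 hv)).symm

theorem adj_cov {v w : V} (h : H.Adj v w) : v ∈ cov H ∧ w ∈ cov H :=
  ⟨mem_cov.2 ⟨w, h⟩, mem_cov.2 ⟨v, h.symm⟩⟩

theorem reach_cov {v w : V} (h : H.Reachable v w) (hv : v ∈ cov H) : w ∈ cov H := by
  rw [SimpleGraph.reachable_iff_reflTransGen] at h
  rcases Relation.ReflTransGen.cases_tail h with h | ⟨c, _, hc⟩
  · rw [h]; exact hv
  · exact (adj_cov hc).2

theorem cov_of_mem {S : Finset V} (hS : S ∈ cycs H) {v : V} (hv : v ∈ S) : v ∈ cov H := by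
  obtain ⟨u, hu, rfl⟩ := mem_cycs.1 hS
  exact reach_cov (mem_cyc.1 hv) hu

theorem hcls_some {v : V} {S : Finset V} : hcls H v = some S ↔ v ∈ cov H ∧ cyc H v = S := by
  unfold hcls
  by_cases h : v ∈ cov H
  · simp [h]
  · simp [h]

theorem hcls_none {v : V} : hcls H v = none ↔ v ∉ cov H := by
  unfold hcls
  by_cases h : v ∈ cov H
  · simp [h]
  · simp [h]

omit [Fintype V] in
/-- all vertices of a chain are reachable from each other -/
theorem chain_reach {l : List V} (hl : l.IsChain H.Adj) : ∀ x ∈ l, ∀ y ∈ l, H.Reachable x y := by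
  induction l with
  | nil => intro x hx; simp at hx
  | cons a l ih =>
    cases l with
    | nil =>
      intro x hx y hy
      simp at hx hy
      subst hx; subst hy
      exact SimpleGraph.Reachable.refl _
    | cons b l =>
      rw [List.isChain_cons_cons] at hl
      have h1 : ∀ z ∈ a :: b :: l, H.Reachable b z := by
        intro z hz
        rcases List.mem_cons.1 hz with rfl | hz
        · exact hl.1.symm.reachable
        · exact ih hl.2 b (by simp) z hz
      intro x hx y hy
      exact (h1 x hx).symm.trans (h1 y hy)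

omit [Fintype V] in
/-- a shortest path as an arc -/
theorem dist_arc {b b' : V} (h : H.Reachable b b') (hne : b ≠ b') :
    ∃ β : List V, IsArc H β ∧ β.head? = some b ∧ β.getLast? = some b' ∧ β.length = H.dist b b' + 1 := by
  obtain ⟨p, hp, hl⟩ := h.exists_path_of_dist
  refine ⟨p.support, ⟨p.isChain_adj_support, hp.support_nodup, ?_⟩, ?_, ?_, ?_⟩
  · rw [SimpleGraph.Walk.length_support]
    have : p.length ≠ 0 := fun h0 => hne (SimpleGraph.Walk.eq_of_length_eq_zero h0)
    omega
  · cases p <;> simp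
  · rw [List.getLast?_eq_getLast_of_ne_nil (by simp), SimpleGraph.Walk.getLast_support]
  · rw [SimpleGraph.Walk.length_support, hl]

end

end Pool.Agent.Lib.MP_688fd0_co.LIN.H85
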