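import Pool.Agent.Lib.MP_688fd0_co.LP.Menger

/-!
Simultaneous connections (helper85): Lemma 2 of LIN/Paper.md, in the bipartite form, without linear programming
duality.  If no class `C i`, `i ∈ I`, can be separated from the other classes by fewer than `u` vertices and all
degrees are at most `d`, there are a set `M ⊆ I` of sources and `m ≥ u |I| / (8 (d + 1))` pairwise disjoint paths, each
from a class in `M` to a class outside `M`, with inner vertices outside all classes, at most `u` of them from each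
class.  Proof: otherwise every `M ⊆ I` has a small cut; the sum of all these cuts is a weight function that contradicts
region growing.
-/

set_option autoImplicit false

namespace Pool.Agent.Lib.MP_688fd0_co.LIN

open Classical LP

variable {V : Type*} {ι : Type*}

/-- a path from class `i` to class `j` whose inner vertices lie in no class -/
structure Connection (G : SimpleGraph V) (C : ι → Set V) (i j : ι) (l : List V) : Prop where
  isP : IsP G l
  hd : ∃ a ∈ C i, l.head? = some a
  lt : ∃ b ∈ C j, l.getLast? = some b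
  inner : ∀ x ∈ l.tail.dropLast, ∀ k, x ∉ C k

/-- clean walks from class `i`: the walk never returns to class `i` and passes through no other class; `t` is the
weight of the vertices strictly before the present vertex -/
inductive Wk (G : SimpleGraph V) (C : ι → Set V) (W : V → ℕ) (i : ι) : ℕ → V → Prop
  | base {v : V} : v ∈ C i → Wk G C W i 0 v
  | step {t : ℕ} {v w : V} : Wk G C W i t v → (∀ k, k ≠ i → v ∉ C k) → G.Adj v w → w ∉ C i →
      Wk G C W i (t + W v) w

theorem Wk.combine {G : SimpleGraph V} {C : ι → Set V} {W : V → ℕ} {i j : ι} (hij : i ≠ j) {t : ℕ} {y : V}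
    (h : Wk G C W j t y) : ∀ {s : ℕ}, Wk G C W i s y →
      ∃ k, k ≠ i ∧ ∃ w ∈ C k, ∃ s', Wk G C W i s' w ∧ s' + W w ≤ s + W y + t := by
  induction h with
  | base hv =>
    intro s hs
    exact ⟨j, fun h => hij h.symm, _, hv, s, hs, by omega⟩
  | step hv hcl hadj hw ih =>
    rename_i t v w
    intro s hs
    by_cases hk : ∃ k, k ≠ i ∧ w ∈ C k
    · obtain ⟨k, hk, hwk⟩ := hk
      exact ⟨k, hk, w, hwk, s, hs, by omega⟩
    · push Not at hk
      have h1 : Wk G C W i (s + W w) v := Wk.step hs hk hadj.symm (hcl i hij)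
      obtain ⟨k, hk', w', hw', s', hs', hle⟩ := ih h1
      exact ⟨k, hk', w', hw', s', hs', by omega⟩

theorem Wk.split {G : SimpleGraph V} {C : ι → Set V} {κ : Type*} (S : Finset κ) (f : κ → V → ℕ) {i : ι} {t : ℕ}
    {v : V} (h : Wk G C (fun v => ∑ M ∈ S, f M v) i t v) :
    ∃ g : κ → ℕ, t = ∑ M ∈ S, g M ∧ ∀ M, Wk G C (f M) i (g M) v := by
  induction h with
  | base hv => exact ⟨fun _ => 0, by simp, fun M => Wk.base hv⟩
  | step hv hcl hadj hw ih =>
    rename_i t v w
    obtain ⟨g, hg, hg'⟩ := ih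
    refine ⟨fun M => g M + f M v, ?_, fun M => Wk.step (hg' M) hcl hadj hw⟩
    rw [hg, Finset.sum_add_distrib]

/-- the last step of a clean walk -/
theorem Wk.last {G : SimpleGraph V} {C : ι → Set V} {W : V → ℕ} {i : ι} {t : ℕ} {v : V} (h : Wk G C W i t v) :
    v ∈ C i ∨ ∃ y s, Wk G C W i s y ∧ G.Adj y v ∧ s + W y = t := by
  cases h with
  | base hv => exact Or.inl hv
  | step hv hcl hadj hw => exact Or.inr ⟨_, _, hv, hadj, rfl⟩

section Cut

/-- the auxiliary digraph -/
noncomputable def auxE [Fintype V] [Fintype ι] (G : SimpleGraph V) (C : ι → Set V) (M : Finset ι) (u : ℕ) :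
    Finset ((V ⊕ (ι × Fin u)) × (V ⊕ (ι × Fin u))) :=
  Finset.univ.filter (fun p => match p.1, p.2 with
    | Sum.inl a, Sum.inl b => G.Adj a b ∧ ∀ k ∈ M, b ∉ C k
    | Sum.inr q, Sum.inl v => q.1 ∈ M ∧ v ∈ C q.1
    | _, Sum.inr _ => False)

variable [Fintype V] [Fintype ι]

theorem auxE_ll {G : SimpleGraph V} {C : ι → Set V} {M : Finset ι} {u : ℕ} {a b : V} :
    ((Sum.inl a : V ⊕ (ι × Fin u)), (Sum.inl b : V ⊕ (ι × Fin u))) ∈ auxE G C M u ↔
      G.Adj a b ∧ ∀ k ∈ M, b ∉ C k := by
  simp [auxE]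

theorem auxE_rl {G : SimpleGraph V} {C : ι → Set V} {M : Finset ι} {u : ℕ} {q : ι × Fin u} {b : V} :
    ((Sum.inr q : V ⊕ (ι × Fin u)), (Sum.inl b : V ⊕ (ι × Fin u))) ∈ auxE G C M u ↔
      q.1 ∈ M ∧ b ∈ C q.1 := by
  simp [auxE]

theorem auxE_r {G : SimpleGraph V} {C : ι → Set V} {M : Finset ι} {u : ℕ} {x : V ⊕ (ι × Fin u)} {q : ι × Fin u} :
    (x, (Sum.inr q : V ⊕ (ι × Fin u))) ∉ auxE G C M u := by
  rcases x with a | q' <;> simp [auxE]

/-- Menger with capacity `u` at the sources -/
theorem capCut (G : SimpleGraph V) (C : ι → Set V) (hC : ∀ i j, i ≠ j → Disjoint (C i) (C j)) (M : Finset ι)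
    (u m : ℕ) :
    (∃ (Q : Fin m → List V) (src tgt : Fin m → ι),
      (∀ t, src t ∈ M ∧ tgt t ∉ M ∧ Connection G C (src t) (tgt t) (Q t)) ∧
      (∀ s t, s ≠ t → List.Disjoint (Q s) (Q t)) ∧
      ∀ i, (Finset.univ.filter (fun t => src t = i)).card ≤ u) ∨
    ∃ (X : Finset V) (Y : Finset ι), X.card + u * Y.card < m ∧
      ∀ i ∈ M, i ∉ Y → ∀ j, j ∉ M → ∀ w ∈ C j, w ∉ X →
        ¬ Wk G C (fun v => if v ∈ X then 1 else 0) i 0 w := by
  by_cases hsep : ∀ X : Finset (V ⊕ (ι × Fin u)), X.card < m →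
      ∃ a ∈ {x : V ⊕ (ι × Fin u) | ∃ q : ι × Fin u, q.1 ∈ M ∧ x = Sum.inr q},
      ∃ b ∈ {x : V ⊕ (ι × Fin u) | ∃ v, (∃ j, j ∉ M ∧ v ∈ C j) ∧ x = Sum.inl v},
        Menger.RA (fun x y => (x, y) ∈ auxE G C M u) ↑X a b
  · left
    obtain ⟨Q, hQ⟩ := Menger.menger_aux (auxE G C M u) _ _ m hsep
    -- decompose the paths
    have hdec : ∀ t, ∃ (q : ι × Fin u) (l : List V) (j : ι), q.1 ∈ M ∧ j ∉ M ∧
        Q t = Sum.inr q :: l.map Sum.inl ∧ Connection G C q.1 j l := by
      intro t
      obtain ⟨a, ⟨q, hqM, rfl⟩, ha⟩ := hQ.hd t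
      obtain ⟨b, ⟨v, ⟨j, hj, hvj⟩, rfl⟩, hb⟩ := hQ.lt t
      have hch := hQ.ch t
      have hnd := hQ.nd t
      have htl := hQ.tl t
      have hdl := hQ.dl t
      obtain ⟨rest, hrest⟩ : ∃ rest, Q t = Sum.inr q :: rest := by
        cases hQt : Q t with
        | nil => rw [hQt] at ha; simp at ha
        | cons c l => rw [hQt] at ha; simp at ha; exact ⟨l, by rw [ha]⟩
      rw [hrest] at hch hnd htl hdl hb
      have hall : ∀ (rest : List (V ⊕ (ι × Fin u))) (x : V ⊕ (ι × Fin u)),
          (x :: rest).IsChain (fun x y => (x, y) ∈ auxE G C M u) → ∃ l : List V, rest = l.map Sum.inl := by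
        intro rest
        induction rest with
        | nil => intro x _; exact ⟨[], rfl⟩
        | cons c rest ih =>
          intro x hx
          obtain ⟨l, hl⟩ := ih c (List.isChain_cons_cons.1 hx).2
          have h1 := (List.isChain_cons_cons.1 hx).1
          rcases c with c | q'
          · exact ⟨c :: l, by rw [hl]; rfl⟩
          · exact absurd h1 auxE_r
      obtain ⟨l, rfl⟩ := hall rest _ hch
      have hlne : l ≠ [] := by
        rintro rfl
        simp at hb
      obtain ⟨c, l', rfl⟩ : ∃ c l', l = c :: l' := by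
        cases l with
        | nil => exact absurd rfl hlne
        | cons c l' => exact ⟨c, l', rfl⟩
      have hch2 : ((c :: l').map Sum.inl : List (V ⊕ (ι × Fin u))).IsChain
          (fun x y => (x, y) ∈ auxE G C M u) := (List.isChain_cons_cons.1 hch).2
      have hc : c ∈ C q.1 := (auxE_rl.1 (List.isChain_cons_cons.1 hch).1).2
      have hch3 : (c :: l').IsChain (fun a b => G.Adj a b ∧ ∀ k ∈ M, b ∉ C k) := by
        rw [List.isChain_map] at hch2
        exact hch2.imp (fun a b h => auxE_ll.1 h)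
      refine ⟨q, c :: l', j, hqM, hj, hrest, ⟨⟨by simp, hch3.imp (fun _ _ h => h.1), ?_⟩, ⟨c, hc, rfl⟩, ?_, ?_⟩⟩
      · exact (List.nodup_map_iff Sum.inl_injective).1 (List.nodup_cons.1 hnd).2
      · refine ⟨v, hvj, ?_⟩
        rw [List.getLast?_cons_of_ne_nil (by simp), List.getLast?_map] at hb
        simpa using hb
      · intro x hx k hxk
        simp only [List.tail_cons] at hx
        by_cases hk : k ∈ M
        · -- tail vertices are not in source classes
          have hx' : x ∈ l' := List.mem_of_mem_dropLast hx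
          have : ∀ (l' : List V) (c : V), (c :: l').IsChain (fun a b => G.Adj a b ∧ ∀ k ∈ M, b ∉ C k) →
              ∀ x ∈ l', ∀ k ∈ M, x ∉ C k := by
            intro l'
            induction l' with
            | nil => intro c _ x hx; simp at hx
            | cons c' l' ih =>
              intro c hc x hx k hk
              rcases List.mem_cons.1 hx with rfl | hx
              · exact (List.isChain_cons_cons.1 hc).1.2 k hk
              · exact ih c' (List.isChain_cons_cons.1 hc).2 x hx k hk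
          exact this l' c hch3 x hx' k hk hxk
        · apply hdl (Sum.inl x) _ ⟨x, ⟨k, hk, hxk⟩, rfl⟩
          cases l' with
          | nil => simp at hx
          | cons c' l' =>
            simp only [List.map_cons, List.dropLast_cons_cons, List.mem_cons]
            right; right
            have h2 : (Sum.inl x : V ⊕ (ι × Fin u)) ∈ (((c' :: l').dropLast).map Sum.inl) :=
              List.mem_map_of_mem hx
            rw [List.map_dropLast] at h2
            simpa using h2
    choose q l j hq hj hQt hcon using hdec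
    refine ⟨l, fun t => (q t).1, j, fun t => ⟨hq t, hj t, hcon t⟩, ?_, ?_⟩
    · intro s t hst x hxs hxt
      refine hQ.dj s t hst (Sum.inl x) ?_ ?_
      · rw [hQt s]; simp [hxs]
      · rw [hQt t]; simp [hxt]
    · intro i
      have hinj : ∀ s t, q s = q t → s = t := by
        intro s t h
        by_contra hne
        refine hQ.dj s t hne (Sum.inr (q s)) ?_ ?_
        · rw [hQt s]; simp
        · rw [hQt t, h]; simp
      calc (Finset.univ.filter (fun t => (q t).1 = i)).card ≤ (Finset.univ : Finset (Fin u)).card := by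
            apply Finset.card_le_card_of_injOn (fun t => (q t).2) (fun _ _ => by simp)
            intro s hs t ht hst
            simp only [Finset.coe_filter, Finset.mem_univ, true_and, Set.mem_ofPred_eq] at hs ht
            exact hinj s t (Prod.ext (hs.trans ht.symm) hst)
        _ = u := by simp
  · right
    push Not at hsep
    obtain ⟨X', hX', hno⟩ := hsep
    refine ⟨Finset.univ.filter (fun v => Sum.inl v ∈ X'),
      M.filter (fun i => ∀ c : Fin u, Sum.inr (i, c) ∈ X'), ?_, ?_⟩
    · refine lt_of_le_of_lt ?_ hX'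
      have h1 : ((Finset.univ.filter (fun v => Sum.inl v ∈ X')).image
            (Sum.inl : V → V ⊕ (ι × Fin u))).card = (Finset.univ.filter (fun v => Sum.inl v ∈ X')).card :=
        Finset.card_image_of_injective _ Sum.inl_injective
      have h2 : (((M.filter (fun i => ∀ c : Fin u, Sum.inr (i, c) ∈ X')) ×ˢ
            (Finset.univ : Finset (Fin u))).image (Sum.inr : ι × Fin u → V ⊕ (ι × Fin u))).card =
          u * (M.filter (fun i => ∀ c : Fin u, Sum.inr (i, c) ∈ X')).card := by
        rw [Finset.card_image_of_injective _ Sum.inr_injective, Finset.card_product]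
        simp [mul_comm]
      rw [← h1, ← h2, ← Finset.card_union_of_disjoint]
      · apply Finset.card_le_card
        intro x hx
        simp only [Finset.mem_union, Finset.mem_image, Finset.mem_filter, Finset.mem_univ, true_and,
          Finset.mem_product, and_true] at hx
        rcases hx with ⟨v, hv, rfl⟩ | ⟨⟨i, c⟩, ⟨_, hi⟩, rfl⟩
        · exact hv
        · exact hi c
      · rw [Finset.disjoint_left]
        intro x hx hx'
        simp only [Finset.mem_image] at hx hx'
        obtain ⟨v, _, rfl⟩ := hx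
        obtain ⟨q, _, h⟩ := hx'
        simp at h
    · intro i hiM hiY j hj w hw hwX hwk
      have hiY' : ∃ c : Fin u, Sum.inr (i, c) ∉ X' := by
        by_contra hcon
        push Not at hcon
        exact hiY (Finset.mem_filter.2 ⟨hiM, hcon⟩)
      obtain ⟨c, hc⟩ := hiY'
      have hwX' : (Sum.inl w : V ⊕ (ι × Fin u)) ∉ X' := by simpa using hwX
      have key : ∀ (t : ℕ) (v : V),
          Wk G C (fun v => if v ∈ Finset.univ.filter (fun v => (Sum.inl v : V ⊕ (ι × Fin u)) ∈ X') then 1 else 0)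
            i t v → t = 0 → (∀ k ∈ M, k ≠ i → v ∉ C k) → (Sum.inl v : V ⊕ (ι × Fin u)) ∉ X' →
          Menger.RA (fun x y => (x, y) ∈ auxE G C M u) ↑X' (Sum.inr (i, c)) (Sum.inl v) := by
        intro t v h
        induction h with
        | base hv =>
          intro _ _ hvX
          exact ⟨by simpa using hc, Relation.ReflTransGen.single ⟨auxE_rl.2 ⟨hiM, hv⟩, by simpa using hvX⟩⟩
        | step hv hcl hadj hw' ih =>
          rename_i t v w
          intro ht hk hwX
          have ht0 : t = 0 := by omega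
          have hvX : (Sum.inl v : V ⊕ (ι × Fin u)) ∉ X' := by
            intro hcon
            simp [hcon] at ht
          have h1 := ih ht0 (fun k _ hki => hcl k hki) hvX
          refine ⟨h1.1, h1.2.tail ⟨auxE_ll.2 ⟨hadj, ?_⟩, by simpa using hwX⟩⟩
          intro k hkM hwk'
          by_cases hki : k = i
          · exact hw' (hki ▸ hwk')
          · exact hk k hkM hki hwk'
      refine hno (Sum.inr (i, c)) ⟨(i, c), hiM, rfl⟩ (Sum.inl w) ⟨w, ⟨j, hj, hw⟩, rfl⟩
        (key 0 w hwk rfl ?_ hwX')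
      intro k hkM _ hwk'
      have hkj : k ≠ j := fun h => hj (h ▸ hkM)
      exact Set.disjoint_left.1 (hC k j hkj) hwk' hw

end Cut

/-- the weight before `v` can be less than `ρ` -/
def Inn (G : SimpleGraph V) (C : ι → Set V) (W : V → ℕ) (i : ι) (ρ : ℕ) (v : V) : Prop :=
  ∃ t, Wk G C W i t v ∧ t < ρ

/-- the weight up to and including `v` can be less than `ρ` -/
def Full (G : SimpleGraph V) (C : ι → Set V) (W : V → ℕ) (i : ι) (ρ : ℕ) (v : V) : Prop :=
  ∃ t, Wk G C W i t v ∧ t + W v < ρ

theorem layer_card (G : SimpleGraph V) (C : ι → Set V) (W : V → ℕ) (i : ι) (R : ℕ) (v : V) :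
    ((Finset.Icc 1 R).filter (fun ρ => Inn G C W i ρ v ∧ ¬ Full G C W i ρ v)).card ≤
      if Inn G C W i R v then W v else 0 := by
  by_cases h : Inn G C W i R v
  · rw [if_pos h]
    have hex : ∃ t, Wk G C W i t v := by
      obtain ⟨t, ht, _⟩ := h
      exact ⟨t, ht⟩
    have hsub : ((Finset.Icc 1 R).filter (fun ρ => Inn G C W i ρ v ∧ ¬ Full G C W i ρ v)) ⊆
        Finset.Ioc (Nat.find hex) (Nat.find hex + W v) := by
      intro ρ hρ
      obtain ⟨_, ⟨t, ht, htρ⟩, hfull⟩ := Finset.mem_filter.1 hρ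
      rw [Finset.mem_Ioc]
      constructor
      · exact lt_of_le_of_lt (Nat.find_min' hex ht) htρ
      · by_contra hcon
        push Not at hcon
        exact hfull ⟨_, Nat.find_spec hex, hcon⟩
    refine (Finset.card_le_card hsub).trans ?_
    simp
  · rw [if_neg h]
    have : ((Finset.Icc 1 R).filter (fun ρ => Inn G C W i ρ v ∧ ¬ Full G C W i ρ v)) = ∅ := by
      rw [Finset.filter_eq_empty_iff]
      intro ρ hρ hcon
      obtain ⟨⟨t, ht, htρ⟩, _⟩ := hcon
      exact h ⟨t, ht, lt_of_lt_of_le htρ (Finset.mem_Icc.1 hρ).2⟩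
    rw [this]; simp

theorem isolate [Fintype V] (G : SimpleGraph V) (C : ι → Set V) (W : V → ℕ) (i : ι) (u δ ρ : ℕ)
    (hδ : ∀ k, k ≠ i → ∀ w ∈ C k, ∀ t, Wk G C W i t w → δ ≤ t + W w)
    (hyp : ∀ Y : Finset V, Y.card < u → ∃ j, j ≠ i ∧ ∃ a ∈ C i, ∃ b ∈ C j, Conn G ((↑Y : Set V)ᶜ) a b)
    (h1 : 1 ≤ ρ) (h2 : ρ ≤ δ) :
    u ≤ (Finset.univ.filter (fun v => Inn G C W i ρ v ∧ ¬ Full G C W i ρ v)).card := by
  by_contra hcon
  push Not at hcon
  obtain ⟨j, hj, a, ha, b, hb, haY, hab⟩ := hyp _ hcon
  have hX : ∀ v, v ∈ ((↑(Finset.univ.filter (fun v => Inn G C W i ρ v ∧ ¬ Full G C W i ρ v)) : Set V)ᶜ) →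
      Inn G C W i ρ v → Full G C W i ρ v := by
    intro v hv hin
    by_contra hf
    apply hv
    simp only [Finset.coe_filter, Finset.mem_univ, true_and, Set.mem_ofPred_eq]
    exact ⟨hin, hf⟩
  have hfa : Full G C W i ρ a := hX a haY ⟨0, Wk.base ha, by omega⟩
  have key : ∀ v, Relation.ReflTransGen (fun x y => G.Adj x y ∧ y ∈
      ((↑(Finset.univ.filter (fun v => Inn G C W i ρ v ∧ ¬ Full G C W i ρ v)) : Set V)ᶜ)) a v →
      Full G C W i ρ v := by
    intro v hv
    induction hv with
    | refl => exact hfa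
    | tail _ hvw ih =>
      rename_i v w _
      apply hX w hvw.2
      by_cases hwi : w ∈ C i
      · exact ⟨0, Wk.base hwi, by omega⟩
      · obtain ⟨t, ht, htρ⟩ := ih
        refine ⟨t + W v, Wk.step ht ?_ hvw.1 hwi, htρ⟩
        intro k hk hvk
        have := hδ k hk v hvk t ht
        omega
  obtain ⟨t, ht, htρ⟩ := key b hab
  have := hδ j hj b hb t ht
  omega

theorem few [Fintype V] (G : SimpleGraph V) (d : ℕ) (hd : ∀ v, (Finset.univ.filter (fun w => G.Adj v w)).card ≤ d)
    (C : ι → Set V) (hC : ∀ i j, i ≠ j → Disjoint (C i) (C j)) (W : V → ℕ) (I : Finset ι) (δ R : ι → ℕ)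
    (hδ : ∀ i ∈ I, ∀ k, k ≠ i → ∀ w ∈ C k, ∀ t, Wk G C W i t w → δ i ≤ t + W w)
    (hR : ∀ i ∈ I, 2 * R i ≤ δ i + 1) (v : V) :
    (I.filter (fun i => Inn G C W i (R i) v)).card ≤ d + 1 := by
  have hch : ∀ i, ∃ y, i ∈ I.filter (fun i => Inn G C W i (R i) v) →
      (y = v ∧ v ∈ C i) ∨ (G.Adj v y ∧ ∃ s, Wk G C W i s y ∧ s + W y < R i) := by
    intro i
    by_cases hi : i ∈ I.filter (fun i => Inn G C W i (R i) v)
    · obtain ⟨_, t, ht, htR⟩ := Finset.mem_filter.1 hi
      rcases ht.last with h | ⟨y, s, hs, hadj, hst⟩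
      · exact ⟨v, fun _ => Or.inl ⟨rfl, h⟩⟩
      · exact ⟨y, fun _ => Or.inr ⟨hadj.symm, s, hs, by omega⟩⟩
    · exact ⟨v, fun h => absurd h hi⟩
  choose f hf using hch
  have h1 : (I.filter (fun i => Inn G C W i (R i) v)).card ≤
      (insert v (Finset.univ.filter (fun w => G.Adj v w))).card := by
    apply Finset.card_le_card_of_injOn f
    · intro i hi
      rcases hf i hi with ⟨h, _⟩ | ⟨h, _⟩
      · rw [h]; simp
      · simp [h]
    · intro i hi j hj hij
      by_contra hne
      have hiI := (Finset.mem_filter.1 hi).1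
      have hjI := (Finset.mem_filter.1 hj).1
      rcases hf i hi with ⟨h, hvi⟩ | ⟨hadj, s, hs, hsR⟩
      · rcases hf j hj with ⟨h', hvj⟩ | ⟨hadj', _⟩
        · exact Set.disjoint_left.1 (hC i j hne) hvi hvj
        · rw [← hij, h] at hadj'
          exact G.loopless.irrefl _ hadj'
      · rcases hf j hj with ⟨h', hvj⟩ | ⟨hadj', s', hs', hsR'⟩
        · rw [hij, h'] at hadj
          exact G.loopless.irrefl _ hadj
        · have e1 := hs
          rw [hij] at e1
          obtain ⟨k, hk, w, hw, q, hq, hle⟩ := Wk.combine hne hs' e1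
          have e2 := hs'
          rw [← hij] at e2
          obtain ⟨k', hk', w', hw', q', hq', hle'⟩ := Wk.combine (fun h => hne h.symm) hs e2
          have a1 := hδ i hiI k hk w hw q hq
          have a2 := hδ j hjI k' hk' w' hw' q' hq'
          have b1 := hR i hiI
          have b2 := hR j hjI
          rw [← hij] at hle hsR'
          omega
  refine h1.trans ((Finset.card_insert_le _ _).trans ?_)
  have := hd v
  omega

/-- **Simultaneous connections** -/
theorem connections [Fintype V] [Fintype ι] (G : SimpleGraph V) (d u : ℕ)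
    (hd : ∀ v, (Finset.univ.filter (fun w => G.Adj v w)).card ≤ d)
    (C : ι → Set V) (hC : ∀ i j, i ≠ j → Disjoint (C i) (C j)) (I : Finset ι)
    (hyp : ∀ i ∈ I, ∀ Y : Finset V, Y.card < u →
      ∃ j, j ≠ i ∧ ∃ a ∈ C i, ∃ b ∈ C j, Conn G ((↑Y : Set V)ᶜ) a b) :
    ∃ (M : Finset ι) (m : ℕ) (Q : Fin m → List V) (src tgt : Fin m → ι), M ⊆ I ∧
      u * I.card ≤ 8 * (d + 1) * m ∧
      (∀ t, src t ∈ M ∧ tgt t ∉ M ∧ Connection G C (src t) (tgt t) (Q t)) ∧
      (∀ s t, s ≠ t → List.Disjoint (Q s) (Q t)) ∧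
      ∀ i, (Finset.univ.filter (fun t => src t = i)).card ≤ u := by
  by_contra hcon
  push Not at hcon
  -- number of connections wanted
  obtain ⟨m, hm1, hm2⟩ : ∃ m, u * I.card ≤ 8 * (d + 1) * m ∧ ∀ x, x < m → 8 * (d + 1) * x < u * I.card := by
    have hex : ∃ m, u * I.card ≤ 8 * (d + 1) * m := ⟨u * I.card, by nlinarith [Nat.zero_le (u * I.card * d)]⟩
    refine ⟨Nat.find hex, Nat.find_spec hex, fun x hx => ?_⟩
    have := Nat.find_min hex hx
    omega
  have hcut : ∀ M, ∃ (X : Finset V) (Y : Finset ι), M ⊆ I → (8 * (d + 1) * (X.card + u * Y.card) < u * I.card ∧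
      ∀ i ∈ M, i ∉ Y → ∀ j, j ∉ M → ∀ w ∈ C j, w ∉ X →
        ¬ Wk G C (fun v => if v ∈ X then 1 else 0) i 0 w) := by
    intro M
    by_cases hM : M ⊆ I
    · rcases capCut G C hC M u m with ⟨Q, src, tgt, h1, h2, h3⟩ | ⟨X, Y, h1, h2⟩
      · exfalso
        obtain ⟨i, hi⟩ := hcon M m Q src tgt hM hm1 h1 h2
        have := h3 i
        omega
      · exact ⟨X, Y, fun _ => ⟨hm2 _ h1, h2⟩⟩
    · exact ⟨∅, ∅, fun h => absurd h hM⟩
  choose X Y hXY using hcut
  -- weights
  have hf : ∀ (M : Finset ι) (v : V), ((if v ∈ X M then 1 else 0 : ℕ)) ≤ 1 := fun M v => by split_ifs <;> omega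
  obtain ⟨W, hW⟩ : ∃ W : V → ℕ, W = fun v => ∑ M ∈ I.powerset, (if v ∈ X M then 1 else 0) := ⟨_, rfl⟩
  obtain ⟨Z, hZ⟩ : ∃ Z : ι → ℕ, Z = fun i => (I.powerset.filter (fun M => i ∈ Y M)).card := ⟨_, rfl⟩
  -- lower bound for clean walks
  have hlow : ∀ i ∈ I, ∀ k, k ≠ i → ∀ w ∈ C k, ∀ t, Wk G C W i t w →
      I.powerset.card ≤ 4 * (t + W w + Z i) := by
    intro i hi k hk w hw t ht
    rw [hW] at ht
    obtain ⟨g, hg, hg'⟩ := Wk.split I.powerset (fun M v => if v ∈ X M then 1 else 0) ht
    -- the family of all M containing i but not k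
    have hfam : I.powerset.card ≤ 4 * (I.powerset.filter (fun M => i ∈ M ∧ k ∉ M)).card := by
      have h2 : (I.powerset.filter (fun M => i ∈ M ∧ k ∉ M)).card =
          ((I.erase i).erase k).powerset.card := by
        symm
        apply Finset.card_bij (fun M _ => insert i M)
        · intro M hM
          simp only [Finset.mem_powerset] at hM
          simp only [Finset.mem_filter, Finset.mem_powerset, Finset.mem_insert_self, true_and,
            Finset.mem_insert, not_or]
          refine ⟨Finset.insert_subset hi (hM.trans ((Finset.erase_subset _ _).trans (Finset.erase_subset _ _))),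
            hk, fun h => ?_⟩
          simpa using hM h
        · intro M hM M' hM' h
          simp only [Finset.mem_powerset] at hM hM'
          have hn : ∀ N : Finset ι, N ⊆ (I.erase i).erase k → i ∉ N := by
            intro N hN h
            simpa using Finset.mem_of_mem_erase (hN h)
          have := congrArg (fun N => Finset.erase N i) h
          simpa [Finset.erase_insert (hn M hM), Finset.erase_insert (hn M' hM')] using this
        · intro M hM
          simp only [Finset.mem_filter, Finset.mem_powerset] at hM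
          refine ⟨M.erase i, ?_, Finset.insert_erase hM.2.1⟩
          simp only [Finset.mem_powerset]
          intro x hx
          have hx' := Finset.mem_of_mem_erase hx
          simp only [Finset.mem_erase]
          refine ⟨fun h => hM.2.2 (h ▸ hx'), Finset.ne_of_mem_erase hx, hM.1 hx'⟩
      rw [h2, Finset.card_powerset, Finset.card_powerset]
      have h3 : I.card ≤ ((I.erase i).erase k).card + 2 := by
        have := Finset.card_erase_of_mem hi
        have h4 := Finset.pred_card_le_card_erase (s := I.erase i) (a := k)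
        omega
      calc 2 ^ I.card ≤ 2 ^ (((I.erase i).erase k).card + 2) := Nat.pow_le_pow_right (by norm_num) h3
        _ = _ := by rw [pow_add]; ring
    have h5 : (I.powerset.filter (fun M => i ∈ M ∧ k ∉ M)).card ≤ t + W w + Z i := by
      have h6 : (I.powerset.filter (fun M => (i ∈ M ∧ k ∉ M) ∧ i ∉ Y M)).card ≤ t + W w := by
        rw [hg, hW, Finset.card_eq_sum_ones]
        simp only
        rw [← Finset.sum_add_distrib]
        calc ∑ M ∈ I.powerset.filter (fun M => (i ∈ M ∧ k ∉ M) ∧ i ∉ Y M), 1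
            ≤ ∑ M ∈ I.powerset.filter (fun M => (i ∈ M ∧ k ∉ M) ∧ i ∉ Y M),
              (g M + if w ∈ X M then 1 else 0) := by
              apply Finset.sum_le_sum
              intro M hM
              obtain ⟨hMI, ⟨hiM, hkM⟩, hiY⟩ := Finset.mem_filter.1 hM
              have h7 := (hXY M (Finset.mem_powerset.1 hMI)).2 i hiM hiY k hkM w hw
              by_cases hwX : w ∈ X M
              · simp [hwX]
              · by_cases hg0 : g M = 0
                · exfalso
                  apply h7 hwX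
                  have h77 := hg' M
                  rw [hg0] at h77
                  exact h77
                · omega
          _ ≤ _ := Finset.sum_le_sum_of_subset (Finset.filter_subset _ _)
      have h8 : (I.powerset.filter (fun M => i ∈ M ∧ k ∉ M)) ⊆
          (I.powerset.filter (fun M => (i ∈ M ∧ k ∉ M) ∧ i ∉ Y M)) ∪
            (I.powerset.filter (fun M => i ∈ Y M)) := by
        intro M hM
        obtain ⟨h9, h10⟩ := Finset.mem_filter.1 hM
        by_cases hiY : i ∈ Y M
        · exact Finset.mem_union_right _ (Finset.mem_filter.2 ⟨h9, hiY⟩)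
        · exact Finset.mem_union_left _ (Finset.mem_filter.2 ⟨h9, h10, hiY⟩)
      have h11 := (Finset.card_le_card h8).trans (Finset.card_union_le _ _)
      have h12 : Z i = (I.powerset.filter (fun M => i ∈ Y M)).card := by rw [hZ]
      omega
    omega
  -- region growing
  obtain ⟨T, hT⟩ : ∃ T, T = I.powerset.card := ⟨_, rfl⟩
  obtain ⟨δ, hδdef⟩ : ∃ δ : ι → ℕ, δ = fun i => (T + 3) / 4 - Z i := ⟨_, rfl⟩
  obtain ⟨R, hRdef⟩ : ∃ R : ι → ℕ, R = fun i => (δ i + 1) / 2 := ⟨_, rfl⟩
  have hδ : ∀ i ∈ I, ∀ k, k ≠ i → ∀ w ∈ C k, ∀ t, Wk G C W i t w → δ i ≤ t + W w := by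
    intro i hi k hk w hw t ht
    have := hlow i hi k hk w hw t ht
    rw [hδdef]
    simp only
    omega
  have hR : ∀ i ∈ I, 2 * R i ≤ δ i + 1 := by
    intro i _
    rw [hRdef]
    simp only
    omega
  have hRδ : ∀ i, R i ≤ δ i := by
    intro i
    rw [hRdef]
    simp only
    omega
  have h1 : ∀ i ∈ I, u * R i ≤ ∑ v, (if Inn G C W i (R i) v then W v else 0) := by
    intro i hi
    calc u * R i = ∑ ρ ∈ Finset.Icc 1 (R i), u := by simp [mul_comm]
      _ ≤ ∑ ρ ∈ Finset.Icc 1 (R i),
          (Finset.univ.filter (fun v => Inn G C W i ρ v ∧ ¬ Full G C W i ρ v)).card := by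
          apply Finset.sum_le_sum
          intro ρ hρ
          obtain ⟨hρ1, hρ2⟩ := Finset.mem_Icc.1 hρ
          exact isolate G C W i u (δ i) ρ (hδ i hi) (hyp i hi) hρ1 (hρ2.trans (hRδ i))
      _ = ∑ v, ((Finset.Icc 1 (R i)).filter (fun ρ => Inn G C W i ρ v ∧ ¬ Full G C W i ρ v)).card := by
          simp only [Finset.card_filter]
          rw [Finset.sum_comm]
      _ ≤ _ := Finset.sum_le_sum (fun v _ => layer_card G C W i (R i) v)
  have h2 : ∑ i ∈ I, u * R i ≤ (d + 1) * ∑ v, W v := by
    calc ∑ i ∈ I, u * R i ≤ ∑ i ∈ I, ∑ v, (if Inn G C W i (R i) v then W v else 0) := Finset.sum_le_sum h1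
      _ = ∑ v, ∑ i ∈ I, (if Inn G C W i (R i) v then W v else 0) := Finset.sum_comm
      _ ≤ ∑ v, (d + 1) * W v := by
          apply Finset.sum_le_sum
          intro v _
          rw [← Finset.sum_filter, Finset.sum_const, smul_eq_mul]
          exact Nat.mul_le_mul_right _ (few G d hd C hC W I δ R hδ hR v)
      _ = _ := by rw [Finset.mul_sum]
  have h3 : T * I.card ≤ 8 * ∑ i ∈ I, R i + 4 * ∑ i ∈ I, Z i := by
    calc T * I.card = ∑ i ∈ I, T := by simp [mul_comm]
      _ ≤ ∑ i ∈ I, (8 * R i + 4 * Z i) := by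
          apply Finset.sum_le_sum
          intro i _
          rw [hRdef, hδdef]
          simp only
          omega
      _ = _ := by rw [Finset.sum_add_distrib, Finset.mul_sum, Finset.mul_sum]
  -- the sum of the cuts
  have h4 : ∑ v, W v = ∑ M ∈ I.powerset, (X M).card := by
    rw [hW, Finset.sum_comm]
    apply Finset.sum_congr rfl
    intro M _
    simp
  have h5 : ∑ i ∈ I, Z i ≤ ∑ M ∈ I.powerset, (Y M).card := by
    rw [hZ]
    simp only [Finset.card_filter]
    rw [Finset.sum_comm]
    apply Finset.sum_le_sum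
    intro M _
    rw [← Finset.card_filter]
    apply Finset.card_le_card
    intro i hi
    exact (Finset.mem_filter.1 hi).2
  have h6 : 8 * (d + 1) * (∑ M ∈ I.powerset, (X M).card + u * ∑ M ∈ I.powerset, (Y M).card) < u * I.card * T := by
    rw [hT, Finset.mul_sum, ← Finset.sum_add_distrib, Finset.mul_sum, Finset.card_eq_sum_ones I.powerset,
      Finset.mul_sum]
    apply Finset.sum_lt_sum_of_nonempty
    · exact ⟨∅, Finset.mem_powerset.2 (Finset.empty_subset _)⟩
    · intro M hM
      rw [mul_one]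
      exact (hXY M (Finset.mem_powerset.1 hM)).1
  have h7 : u * (T * I.card) ≤ u * (8 * ∑ i ∈ I, R i + 4 * ∑ i ∈ I, Z i) := Nat.mul_le_mul_left _ h3
  rw [← Finset.mul_sum] at h2
  rw [h4] at h2
  have h8 : u * (8 * ∑ i ∈ I, R i + 4 * ∑ i ∈ I, Z i) ≤
      8 * (d + 1) * (∑ M ∈ I.powerset, (X M).card + u * ∑ M ∈ I.powerset, (Y M).card) := by
    have h9 : u * (4 * ∑ i ∈ I, Z i) ≤ 8 * (d + 1) * (u * ∑ M ∈ I.powerset, (Y M).card) := by
      calc u * (4 * ∑ i ∈ I, Z i) = 4 * (u * ∑ i ∈ I, Z i) := by ring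
        _ ≤ (8 * (d + 1)) * (u * ∑ M ∈ I.powerset, (Y M).card) :=
            Nat.mul_le_mul (by omega) (Nat.mul_le_mul_left _ h5)
    calc u * (8 * ∑ i ∈ I, R i + 4 * ∑ i ∈ I, Z i) = 8 * (u * ∑ i ∈ I, R i) + u * (4 * ∑ i ∈ I, Z i) := by ring
      _ ≤ 8 * ((d + 1) * ∑ M ∈ I.powerset, (X M).card) +
          8 * (d + 1) * (u * ∑ M ∈ I.powerset, (Y M).card) :=
            Nat.add_le_add (Nat.mul_le_mul_left _ h2) h9
      _ = _ := by ring
  have h10 : u * I.card * T = u * (T * I.card) := by ring
  omega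

end Pool.Agent.Lib.MP_688fd0_co.LIN
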