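import Pool.Agent.Lib.MP_688fd0_co.LIN.H85.Basics
import Pool.Agent.Lib.MP_688fd0_co.LIN.H85.Connect

/-!
Module MDC (helper85): simultaneous connections, with the definitions of Iface (bipartite form).
-/

set_option autoImplicit false

namespace Pool.Agent.Lib.MP_688fd0_co.LIN.H85

open Classical
open Pool.Agent.Lib.MP_688fd0_co.LP (IsP Conn Cyc Symm cay)

/-- Many disjoint connections from classes in `M ⊆ I` to classes outside `M`. -/
theorem mdc {V ι : Type*} [Fintype V] [Fintype ι] (G : SimpleGraph V) (d q : ℕ) (hd : ∀ v, dg G v ≤ d)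
    (cls : V → Option ι) (I : Finset ι) (hI : ∀ i ∈ I, Iso G cls i q) :
    ∃ (M : Finset ι) (m : ℕ) (Q : Fin m → List V) (src tgt : Fin m → ι), M ⊆ I ∧
      q * I.card ≤ 8 * (d + 1) * m ∧
      (∀ t, src t ∈ M ∧ tgt t ∉ M ∧ IsConn G cls (src t) (Q t) ∧
        ∃ b, (Q t).getLast? = some b ∧ cls b = some (tgt t)) ∧
      (∀ s t, s ≠ t → List.Disjoint (Q s) (Q t)) ∧
      ∀ i, (Finset.univ.filter (fun t => src t = i)).card ≤ q := by
  obtain ⟨M, m, Q, src, tgt, h1, h2, h3, h4, h5⟩ := connections G d q (fun v => hd v)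
    (fun i => {v | cls v = some i}) (by
      intro i j hij
      rw [Set.disjoint_left]
      intro v hv hv'
      simp only [Set.mem_ofPred_eq] at hv hv'
      rw [hv] at hv'
      exact hij (Option.some.inj hv')) I (by
      intro i hi Y hY
      obtain ⟨l, hl, ⟨a, ha, hca⟩, ⟨b, j, hb, hcb, hj⟩, hav⟩ := hI i hi Y hY
      refine ⟨j, hj, a, hca, b, hcb, ?_⟩
      have := LP.Menger.chain_RA (r := G.Adj) (X := (Y : Set V)) l a b hl.2.1 ha hb
        (fun x hx => by simpa using hav x hx)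
      exact this)
  refine ⟨M, m, Q, src, tgt, h1, h2, ?_, h4, h5⟩
  intro t
  obtain ⟨hM, hT, hC⟩ := h3 t
  obtain ⟨a, ha, ha'⟩ := hC.hd
  obtain ⟨b, hb, hb'⟩ := hC.lt
  have hne : tgt t ≠ src t := fun h => hT (h ▸ hM)
  refine ⟨hM, hT, ⟨hC.isP, ⟨a, ha', ha⟩, ⟨b, tgt t, hb', hb, hne⟩, ?_⟩, b, hb', hb⟩
  intro v hv
  have := hC.inner v hv
  simp only [Set.mem_ofPred_eq] at this
  rcases h : cls v with _ | k
  · rfl
  · exact absurd h (this k)

end Pool.Agent.Lib.MP_688fd0_co.LIN.H85
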